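import Mathlib

set_option autoImplicit false

namespace Pool.Agent.Results.MP_f8ee93_co.ThreeEdgeConnected

/-- A rotation system of a simple graph: a permutation of the darts (oriented edges) whose
cycles are exactly the sets of darts leaving one vertex. -/
structure Rotation {V : Type} (G : SimpleGraph V) where
  /-- the next dart in the cyclic order around the initial vertex -/
  next : Equiv.Perm G.Dart
  fst_next : ∀ d : G.Dart, (next d).fst = d.fst
  cyclic : ∀ d d' : G.Dart, d.fst = d'.fst → next.SameCycle d d'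

/-- The face-tracing permutation: after the dart `d` from `u` to `v` comes the dart at `v` that
follows the dart from `v` to `u` in the rotation at `v`.  Its cycles are the facial walks. -/
def Rotation.face {V : Type} {G : SimpleGraph V} (R : Rotation G) : Equiv.Perm G.Dart :=
  (Function.Involutive.toPerm SimpleGraph.Dart.symm SimpleGraph.Dart.symm_involutive).trans R.next

/-- The number of facial walks. -/
noncomputable def Rotation.faces {V : Type} {G : SimpleGraph V} (R : Rotation G) : ℕ :=
  Nat.card (Quotient (Equiv.Perm.SameCycle.setoid R.face))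

/-- Number of vertices minus number of edges plus number of faces. -/
noncomputable def Rotation.eulerChar {V : Type} {G : SimpleGraph V} (R : Rotation G) : ℤ :=
  (Nat.card V : ℤ) - Nat.card G.edgeSet + R.faces

/-- The genus: the least `g` such that some rotation system has Euler characteristic `2 - 2g`. -/
noncomputable def genus {V : Type} (G : SimpleGraph V) : ℕ :=
  sInf {g : ℕ | ∃ R : Rotation G, R.eulerChar = 2 - 2 * (g : ℤ)}

/-! ### The graph -/

/-- packed table of the dart reversal -/
def big : ℕ := 1054481440586517525395838686635591870678544678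

/-- dart reversal on `0..29`; the darts at vertex `v` are `3v, 3v+1, 3v+2` -/
def al (x : ℕ) : ℕ := (big / 32 ^ x) % 32

theorem al_lt : ∀ x : Fin 30, al x < 30 := by decide +kernel

theorem al_al : ∀ x : Fin 30, al (al x) = x := by decide +kernel

theorem al_div_ne : ∀ x : Fin 30, al x / 3 ≠ (x : ℕ) / 3 := by decide +kernel

theorem al_inj2 : ∀ x y : Fin 30, (x : ℕ) / 3 = (y : ℕ) / 3 → al x / 3 = al y / 3 → x = y := by
  decide +kernel

/-- The graph: two copies of `K_{3,3}` minus a vertex, joined by three edges. -/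
def G : SimpleGraph (Fin 10) where
  Adj u v := ∃ i : Fin 3, al (3 * (u : ℕ) + (i : ℕ)) / 3 = (v : ℕ)
  symm := ⟨fun u v h => by revert u v; decide +kernel⟩
  loopless := ⟨fun u h => by revert u; decide +kernel⟩

theorem adj_mk (x : Fin 30) :
    G.Adj ⟨(x : ℕ) / 3, by omega⟩ ⟨al x / 3, by have := al_lt x; omega⟩ := by
  refine ⟨⟨(x : ℕ) % 3, by omega⟩, ?_⟩
  have : 3 * ((x : ℕ) / 3) + (x : ℕ) % 3 = x := by omega
  simp [this]

/-- the dart with number `x` -/
def dart (x : Fin 30) : G.Dart :=
  ⟨(⟨(x : ℕ) / 3, by omega⟩, ⟨al x / 3, by have := al_lt x; omega⟩), adj_mk x⟩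

theorem dart_bij : Function.Bijective dart := by
  constructor
  · intro x y h
    have h1 : (dart x).fst = (dart y).fst := by rw [h]
    have h2 : (dart x).snd = (dart y).snd := by rw [h]
    have h1' : (x : ℕ) / 3 = (y : ℕ) / 3 := by simpa [dart] using h1
    have h2' : al x / 3 = al y / 3 := by simpa [dart] using h2
    exact al_inj2 x y h1' h2'
  · intro d
    obtain ⟨i, hi⟩ := d.adj
    have hu := d.fst.isLt
    have hii := i.isLt
    refine ⟨⟨3 * (d.fst : ℕ) + (i : ℕ), by omega⟩, ?_⟩
    apply SimpleGraph.Dart.ext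
    apply Prod.ext
    · apply Fin.ext
      show (3 * (d.fst : ℕ) + (i : ℕ)) / 3 = (d.fst : ℕ)
      omega
    · apply Fin.ext
      show al (3 * (d.fst : ℕ) + (i : ℕ)) / 3 = (d.snd : ℕ)
      exact hi

/-- numbering of the darts -/
noncomputable def E : Fin 30 ≃ G.Dart := Equiv.ofBijective dart dart_bij

theorem E_fst (x : Fin 30) : ((E x).fst : ℕ) = (x : ℕ) / 3 := rfl

theorem E_snd (x : Fin 30) : ((E x).snd : ℕ) = al x / 3 := rfl

theorem E_symm (x : Fin 30) : (E x).symm = E ⟨al x, al_lt x⟩ := by
  apply SimpleGraph.Dart.ext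
  apply Prod.ext
  · apply Fin.ext
    show al x / 3 = al x / 3
    rfl
  · apply Fin.ext
    show (x : ℕ) / 3 = al (al x) / 3
    rw [al_al]

/-- rotation by one or two places in each block, according to the bits of `s` -/
def rot (s y : ℕ) : ℕ := 3 * (y / 3) + (y % 3 + (if s.testBit (y / 3) then 1 else 2)) % 3

/-- face tracing in coordinates -/
def phi (s x : ℕ) : ℕ := rot s (al x)

/-- `true` if the walk `y, f y, f (f y), ...` does not go below `x` before reaching `x` -/
def chk (f : ℕ → ℕ) (x : ℕ) : ℕ → ℕ → Bool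
  | 0, _ => true
  | n + 1, y => if y < x then false else if y = x then true else chk f x n (f y)

/-- the walk from `y` meets `t` -/
def hit (f : ℕ → ℕ) (t : ℕ) : ℕ → ℕ → Bool
  | 0, _ => false
  | n + 1, y => if y = t then true else hit f t n (f y)

/-- the elements that look like least elements of their cycle -/
def mins (f : ℕ → ℕ) : List ℕ := (List.range 30).filter (fun x => chk f x 30 (f x))

/-- some face contains a dart and its reverse -/
def bad (f : ℕ → ℕ) : Bool := (List.range 30).any (fun d => hit f (al d) 30 (f d))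

/-- the finite check for one rotation system -/
def okMask (s : ℕ) : Bool :=
  decide ((mins (phi s)).length ≤ 3) || (decide ((mins (phi s)).length ≤ 5) && bad (phi s))

theorem okMask_all : ∀ s : Fin 1024, okMask s = true := by decide +kernel

/-! ### From a rotation system to a mask -/

/-- a rotation system in coordinates -/
noncomputable def rho (R : Rotation G) (x : Fin 30) : Fin 30 := E.symm (R.next (E x))

theorem E_rho (R : Rotation G) (x : Fin 30) : E (rho R x) = R.next (E x) := by
  simp [rho]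

theorem rho_div (R : Rotation G) (x : Fin 30) : ((rho R x : Fin 30) : ℕ) / 3 = (x : ℕ) / 3 := by
  have h := R.fst_next (E x)
  rw [← E_rho] at h
  have h2 := congrArg Fin.val h
  rwa [E_fst, E_fst] at h2

theorem rho_inj (R : Rotation G) : Function.Injective (rho R) := by
  intro x y h
  have : E (rho R x) = E (rho R y) := by rw [h]
  rw [E_rho, E_rho] at this
  exact E.injective (R.next.injective this)

theorem rho_ne (R : Rotation G) (x : Fin 30) : rho R x ≠ x := by
  intro h
  have hfix : R.next (E x) = E x := by rw [← E_rho, h]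
  -- another dart at the same vertex
  obtain ⟨y, hy, hyx⟩ : ∃ y : Fin 30, (y : ℕ) / 3 = (x : ℕ) / 3 ∧ y ≠ x := by
    by_cases h0 : (x : ℕ) % 3 = 0
    · refine ⟨⟨(x : ℕ) + 1, by omega⟩, ?_, ?_⟩
      · show ((x : ℕ) + 1) / 3 = (x : ℕ) / 3
        omega
      · intro hc
        have := congrArg Fin.val hc
        simp at this
    · refine ⟨⟨(x : ℕ) - 1, by omega⟩, ?_, ?_⟩
      · show ((x : ℕ) - 1) / 3 = (x : ℕ) / 3
        omega
      · intro hc
        have := congrArg Fin.val hc
        simp at this
        omega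
  have hfst : (E x).fst = (E y).fst := by
    apply Fin.ext
    rw [E_fst, E_fst, hy]
  have hsc := R.cyclic (E x) (E y) hfst
  have : E x = E y := by
    have := hsc.eq_of_left (f := R.next) (show Function.IsFixedPt R.next (E x) from hfix)
    exact this
  exact hyx (E.injective this).symm

/-- the bits of a rotation system -/
noncomputable def bits (R : Rotation G) (v : Fin 10) : Bool :=
  decide (((rho R ⟨3 * (v : ℕ), by omega⟩ : Fin 30) : ℕ) = 3 * (v : ℕ) + 1)

/-- the mask of a rotation system -/
noncomputable def mask (R : Rotation G) : ℕ := Nat.ofBits (bits R)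

theorem mask_lt (R : Rotation G) : mask R < 1024 := by
  have := Nat.ofBits_lt_two_pow (bits R)
  simpa [mask] using this

theorem mask_bit (R : Rotation G) (v : ℕ) (hv : v < 10) :
    (mask R).testBit v = bits R ⟨v, hv⟩ := by
  unfold mask
  rw [Nat.testBit_ofBits_lt _ _ hv]

theorem rho_eq (R : Rotation G) (x : Fin 30) : ((rho R x : Fin 30) : ℕ) = rot (mask R) x := by
  have hx := x.isLt
  set v : ℕ := (x : ℕ) / 3 with hv
  have hv10 : v < 10 := by omega
  let x0 : Fin 30 := ⟨3 * v, by omega⟩
  let x1 : Fin 30 := ⟨3 * v + 1, by omega⟩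
  let x2 : Fin 30 := ⟨3 * v + 2, by omega⟩
  have hx0 : (x0 : ℕ) = 3 * v := rfl
  have hx1 : (x1 : ℕ) = 3 * v + 1 := rfl
  have hx2 : (x2 : ℕ) = 3 * v + 2 := rfl
  have d0 := rho_div R x0
  have d1 := rho_div R x1
  have d2 := rho_div R x2
  have n0 : (rho R x0 : ℕ) ≠ (x0 : ℕ) := fun h => rho_ne R x0 (Fin.ext h)
  have n1 : (rho R x1 : ℕ) ≠ (x1 : ℕ) := fun h => rho_ne R x1 (Fin.ext h)
  have n2 : (rho R x2 : ℕ) ≠ (x2 : ℕ) := fun h => rho_ne R x2 (Fin.ext h)
  have i01 : (rho R x0 : ℕ) ≠ (rho R x1 : ℕ) := fun h => by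
    have := congrArg Fin.val (rho_inj R (Fin.ext h))
    omega
  have i02 : (rho R x0 : ℕ) ≠ (rho R x2 : ℕ) := fun h => by
    have := congrArg Fin.val (rho_inj R (Fin.ext h))
    omega
  have i12 : (rho R x1 : ℕ) ≠ (rho R x2 : ℕ) := fun h => by
    have := congrArg Fin.val (rho_inj R (Fin.ext h))
    omega
  have hb : (mask R).testBit ((x : ℕ) / 3) = decide ((rho R x0 : ℕ) = 3 * v + 1) := by
    rw [← hv, mask_bit R v hv10]
    rfl
  rw [hx0] at d0 n0
  rw [hx1] at d1 n1
  rw [hx2] at d2 n2
  have key : ((rho R x : Fin 30) : ℕ)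
      = 3 * v + ((x : ℕ) % 3 + (if (rho R x0 : ℕ) = 3 * v + 1 then 1 else 2)) % 3 := by
    have hcases : (x : ℕ) = 3 * v ∨ (x : ℕ) = 3 * v + 1 ∨ (x : ℕ) = 3 * v + 2 := by omega
    rcases hcases with h | h | h
    · have hxe : x = x0 := Fin.ext h
      rw [hxe, hx0]
      split_ifs with hh
      · omega
      · omega
    · have hxe : x = x1 := Fin.ext h
      rw [hxe, hx1]
      split_ifs with hh
      · omega
      · omega
    · have hxe : x = x2 := Fin.ext h
      rw [hxe, hx2]
      split_ifs with hh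
      · omega
      · omega
  rw [key]
  unfold rot
  rw [hb]
  simp only [decide_eq_true_eq]
  rw [← hv]

/-- the face permutation in coordinates -/
noncomputable def F (R : Rotation G) (x : Fin 30) : Fin 30 := E.symm (R.face (E x))

theorem E_F (R : Rotation G) (x : Fin 30) : E (F R x) = R.face (E x) := by simp [F]

theorem F_eq (R : Rotation G) (x : Fin 30) : ((F R x : Fin 30) : ℕ) = phi (mask R) x := by
  have h : R.face (E x) = R.next (E x).symm := rfl
  have h2 : F R x = rho R ⟨al x, al_lt x⟩ := by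
    unfold F rho
    rw [h, E_symm]
  rw [h2, rho_eq]
  rfl

theorem F_iter (R : Rotation G) (k : ℕ) (x : Fin 30) :
    (((F R)^[k] x : Fin 30) : ℕ) = (phi (mask R))^[k] x := by
  induction k with
  | zero => rfl
  | succ k ih =>
    rw [Function.iterate_succ_apply', Function.iterate_succ_apply', F_eq, ih]

theorem E_iter (R : Rotation G) (k : ℕ) (x : Fin 30) :
    E ((F R)^[k] x) = (R.face ^ k) (E x) := by
  induction k with
  | zero => rfl
  | succ k ih =>
    rw [Function.iterate_succ_apply', E_F, ih, pow_succ']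
    rfl

theorem sameCycle_iter (R : Rotation G) (k : ℕ) (x : Fin 30) :
    R.face.SameCycle (E x) (E ((F R)^[k] x)) := by
  rw [E_iter]
  exact ⟨(k : ℤ), by simp⟩

/-! ### The combinatorial checks -/

theorem chk_true (f : ℕ → ℕ) (x : ℕ) : ∀ (n y : ℕ), (∀ k, x ≤ f^[k] y) → chk f x n y = true
  | 0, _, _ => rfl
  | n + 1, y, h => by
    have h0 : ¬ y < x := by
      have := h 0
      simp at this
      omega
    simp only [chk]
    rw [if_neg h0]
    split_ifs with hy
    · rfl
    · apply chk_true f x n (f y)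
      intro k
      have := h (k + 1)
      rwa [Function.iterate_succ_apply] at this

theorem hit_true (f : ℕ → ℕ) (t : ℕ) : ∀ (n y : ℕ), hit f t n y = true → ∃ k, f^[k] y = t
  | 0, _, h => by simp [hit] at h
  | n + 1, y, h => by
    simp only [hit] at h
    split_ifs at h with hy
    · exact ⟨0, hy⟩
    · obtain ⟨k, hk⟩ := hit_true f t n (f y) h
      exact ⟨k + 1, by rwa [Function.iterate_succ_apply]⟩

theorem bad_spec (R : Rotation G) (h : bad (phi (mask R)) = true) :
    ∃ d : G.Dart, R.face.SameCycle d d.symm := by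
  unfold bad at h
  rw [List.any_eq_true] at h
  obtain ⟨d, hd, hh⟩ := h
  rw [List.mem_range] at hd
  obtain ⟨k, hk⟩ := hit_true _ _ _ _ hh
  refine ⟨E ⟨d, hd⟩, ?_⟩
  rw [E_symm]
  have h2 : (F R)^[k + 1] ⟨d, hd⟩ = ⟨al d, al_lt ⟨d, hd⟩⟩ := by
    apply Fin.ext
    rw [F_iter, Function.iterate_succ_apply]
    exact hk
  have h3 := sameCycle_iter R (k + 1) ⟨d, hd⟩
  rw [h2] at h3
  exact h3

theorem faces_le (R : Rotation G) : R.faces ≤ (mins (phi (mask R))).length := by
  classical
  set T : Finset ℕ := (mins (phi (mask R))).toFinset with hT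
  have hTlt : ∀ x ∈ T, x < 30 := by
    intro x hx
    rw [hT, List.mem_toFinset] at hx
    unfold mins at hx
    rw [List.mem_filter] at hx
    exact List.mem_range.mp hx.1
  have hcard : T.card ≤ (mins (phi (mask R))).length := List.toFinset_card_le _
  refine le_trans ?_ hcard
  let g : T → Quotient (Equiv.Perm.SameCycle.setoid R.face) :=
    fun x => Quotient.mk _ (E ⟨x.1, hTlt x.1 x.2⟩)
  have hg : Function.Surjective g := by
    intro q
    obtain ⟨d, rfl⟩ := Quotient.exists_rep q
    -- least element of the cycle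
    let P : ℕ → Prop := fun x => ∃ hx : x < 30, R.face.SameCycle (E ⟨x, hx⟩) d
    have hP : ∃ x, P x := by
      refine ⟨(E.symm d : Fin 30), (E.symm d).isLt, ?_⟩
      have : E ⟨((E.symm d : Fin 30) : ℕ), (E.symm d).isLt⟩ = d := E.apply_symm_apply d
      rw [this]
    obtain ⟨hx, hsc⟩ := Nat.find_spec hP
    have hmin : ∀ y, P y → Nat.find hP ≤ y := fun y hy => Nat.find_min' hP hy
    set x := Nat.find hP with hxdef
    have hchk : chk (phi (mask R)) x 30 (phi (mask R) x) = true := by
      apply chk_true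
      intro k
      apply hmin
      have h1 : (phi (mask R))^[k] (phi (mask R) x) = ((F R)^[k + 1] ⟨x, hx⟩ : Fin 30) := by
        rw [F_iter, Function.iterate_succ_apply]
      rw [h1]
      refine ⟨((F R)^[k + 1] ⟨x, hx⟩).isLt, ?_⟩
      have h2 := sameCycle_iter R (k + 1) ⟨x, hx⟩
      exact h2.symm.trans hsc
    have hxT : x ∈ T := by
      rw [hT, List.mem_toFinset]
      unfold mins
      rw [List.mem_filter]
      exact ⟨List.mem_range.mpr hx, hchk⟩
    refine ⟨⟨x, hxT⟩, ?_⟩
    exact Quotient.sound hsc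
  have := Nat.card_le_card_of_surjective g hg
  unfold Rotation.faces
  simpa using this

instance decAdj : DecidableRel G.Adj := fun u v =>
  inferInstanceAs (Decidable (∃ i : Fin 3, al (3 * (u : ℕ) + (i : ℕ)) / 3 = (v : ℕ)))

theorem card_dart : Fintype.card G.Dart = 30 := by
  rw [← Fintype.card_congr E]
  simp

theorem card_edges : Nat.card G.edgeSet = 15 := by
  have h := G.dart_card_eq_twice_card_edges
  rw [card_dart] at h
  rw [Nat.card_eq_fintype_card, ← SimpleGraph.edgeFinset_card]
  omega

theorem euler_eq (R : Rotation G) : R.eulerChar = (R.faces : ℤ) - 5 := by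
  unfold Rotation.eulerChar
  rw [card_edges]
  simp
  ring

theorem deg_three (v : Fin 10) : (G.neighborSet v).ncard = 3 := by
  have h : ∀ v : Fin 10, G.degree v = 3 := by decide +kernel
  rw [← h v, Set.ncard_eq_toFinset_card']
  rfl

/-! ### Three-edge-connectedness -/

theorem cuts : ∀ m : Fin 1024, m ≠ 0 → m ≠ 1023 →
    3 ≤ ((List.range 30).filter (fun x => (m : ℕ).testBit (x / 3) &&
      !(m : ℕ).testBit (al x / 3))).length := by
  decide +kernel

theorem conn (e f : Sym2 (Fin 10)) : (G.deleteEdges {e, f}).Connected := by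
  classical
  set H := G.deleteEdges {e, f} with hH
  refine ⟨fun x y => ?_⟩
  by_contra hxy
  let b : Fin 10 → Bool := fun v => decide (H.Reachable x v)
  have hlt : Nat.ofBits b < 1024 := by
    have := Nat.ofBits_lt_two_pow b
    simpa using this
  have hbit : ∀ v (hv : v < 10), (Nat.ofBits b).testBit v = b ⟨v, hv⟩ := fun v hv => by
    rw [Nat.testBit_ofBits_lt _ _ hv]
  have hx1 : (Nat.ofBits b).testBit (x : ℕ) = true := by
    rw [hbit _ x.isLt]
    simp [b]
  have hy0 : (Nat.ofBits b).testBit (y : ℕ) = false := by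
    rw [hbit _ y.isLt]
    simp [b, hxy]
  have h0 : (⟨Nat.ofBits b, hlt⟩ : Fin 1024) ≠ 0 := by
    intro h
    have h' : Nat.ofBits b = 0 := congrArg Fin.val h
    rw [h'] at hx1
    simp at hx1
  have h1 : (⟨Nat.ofBits b, hlt⟩ : Fin 1024) ≠ 1023 := by
    intro h
    have h' : Nat.ofBits b = 1023 := congrArg Fin.val h
    rw [h'] at hy0
    have : ∀ y : Fin 10, (1023 : ℕ).testBit (y : ℕ) = true := by decide +kernel
    rw [this y] at hy0
    exact absurd hy0 (by decide)
  have h3 := cuts ⟨Nat.ofBits b, hlt⟩ h0 h1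
  set L := (List.range 30).filter (fun x => (Nat.ofBits b).testBit (x / 3) &&
      !(Nat.ofBits b).testBit (al x / 3)) with hL
  have hnd : L.Nodup := List.nodup_range.filter _
  have hmem : ∀ z ∈ L, ∃ hz : z < 30, H.Reachable x (E ⟨z, hz⟩).fst ∧
      ¬ H.Reachable x (E ⟨z, hz⟩).snd := by
    intro z hz
    rw [hL, List.mem_filter, List.mem_range] at hz
    obtain ⟨hz30, hz2⟩ := hz
    refine ⟨hz30, ?_⟩
    rw [Bool.and_eq_true, Bool.not_eq_true'] at hz2
    obtain ⟨ha, hb⟩ := hz2
    have hal := al_lt ⟨z, hz30⟩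
    rw [hbit _ (by omega)] at ha
    rw [hbit _ (by
      have : al z < 30 := hal
      omega)] at hb
    simp only [b, decide_eq_true_eq, decide_eq_false_iff_not] at ha hb
    exact ⟨ha, hb⟩
  -- each such dart has its edge in `{e, f}`
  have hedge : ∀ z ∈ L, ∀ hz : z < 30, (E ⟨z, hz⟩).edge = e ∨ (E ⟨z, hz⟩).edge = f := by
    intro z hzL hz
    obtain ⟨_, hr, hn⟩ := hmem z hzL
    by_contra hcon
    apply hn
    refine hr.trans (SimpleGraph.Adj.reachable ?_)
    rw [hH, SimpleGraph.deleteEdges_adj]
    refine ⟨(E ⟨z, hz⟩).adj, ?_⟩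
    intro hc
    apply hcon
    rw [Set.mem_insert_iff, Set.mem_singleton_iff] at hc
    exact hc
  let g : ℕ → Sym2 (Fin 10) := fun z => if hz : z < 30 then (E ⟨z, hz⟩).edge else e
  have hmaps : ∀ z ∈ L.toFinset, g z ∈ ({e, f} : Finset (Sym2 (Fin 10))) := by
    intro z hz
    rw [List.mem_toFinset] at hz
    obtain ⟨hz30, _, _⟩ := hmem z hz
    have := hedge z hz hz30
    simp only [g, dif_pos hz30, Finset.mem_insert, Finset.mem_singleton]
    exact this
  have hinj : Set.InjOn g (L.toFinset : Set ℕ) := by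
    intro z hz w hw hzw
    have hz : z ∈ L := by simpa using hz
    have hw : w ∈ L := by simpa using hw
    obtain ⟨hz30, hzr, hzn⟩ := hmem z hz
    obtain ⟨hw30, hwr, hwn⟩ := hmem w hw
    simp only [g, dif_pos hz30, dif_pos hw30] at hzw
    rw [SimpleGraph.dart_edge_eq_iff] at hzw
    rcases hzw with h | h
    · have := E.injective h
      exact congrArg Fin.val this
    · exfalso
      apply hwn
      have : (E ⟨z, hz30⟩).fst = (E ⟨w, hw30⟩).snd := by rw [h]; rfl
      rw [← this]
      exact hzr
  have hcard := Finset.card_le_card_of_injOn g hmaps hinj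
  have hLc : L.toFinset.card = L.length := List.toFinset_card_of_nodup hnd
  have h2 : ({e, f} : Finset (Sym2 (Fin 10))).card ≤ 2 := Finset.card_le_two
  have h3' : 3 ≤ L.length := h3
  omega

/-! ### Two rotation systems -/

theorem rot_lt (s : ℕ) (x : Fin 30) : rot s x < 30 := by
  have := x.isLt
  unfold rot
  omega

/-- the coordinate map of the rotation system with mask `s` -/
def rf (s : ℕ) (x : Fin 30) : Fin 30 := ⟨rot s x, rot_lt s x⟩

/-- a rotation system from a mask -/
noncomputable def ofMask (s : ℕ) (hb : ∀ x, rf s (rf s (rf s x)) = x)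
    (hc : ∀ x y : Fin 30, (x : ℕ) / 3 = (y : ℕ) / 3 → y = x ∨ y = rf s x ∨ y = rf s (rf s x)) :
    Rotation G where
  next := E.symm.trans (Equiv.trans
    ⟨rf s, fun x => rf s (rf s x), hb, hb⟩ E)
  fst_next d := by
    apply Fin.ext
    obtain ⟨x, rfl⟩ := E.surjective d
    simp only [Equiv.trans_apply, Equiv.symm_apply_apply, Equiv.coe_fn_mk, E_fst]
    have := x.isLt
    show rot s x / 3 = (x : ℕ) / 3
    unfold rot
    omega
  cyclic d d' h := by
    obtain ⟨x, rfl⟩ := E.surjective d
    obtain ⟨y, rfl⟩ := E.surjective d'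
    have h' := congrArg Fin.val h
    rw [E_fst, E_fst] at h'
    rcases hc x y h' with h1 | h1 | h1
    · subst h1
      exact Equiv.Perm.SameCycle.refl _ _
    · subst h1
      exact ⟨1, by simp⟩
    · subst h1
      exact ⟨2, by
        rw [zpow_two]
        simp⟩

theorem ofMask_face (s : ℕ) (hb : ∀ x, rf s (rf s (rf s x)) = x)
    (hc : ∀ x y : Fin 30, (x : ℕ) / 3 = (y : ℕ) / 3 → y = x ∨ y = rf s x ∨ y = rf s (rf s x))
    (x : Fin 30) : (ofMask s hb hc).face (E x) = E (rf s ⟨al x, al_lt x⟩) := by
  have h : (ofMask s hb hc).face (E x) = (ofMask s hb hc).next (E x).symm := rfl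
  rw [h, E_symm]
  simp [ofMask]

/-- labels constant on faces -/
theorem faces_ge (R : Rotation G) (n : ℕ) (L : Fin 30 → Fin n)
    (hL : ∀ x, L (F R x) = L x) (hs : Function.Surjective L) : n ≤ R.faces := by
  have hinv : ∀ (k : ℕ) (d : G.Dart), L (E.symm ((R.face ^ k) d)) = L (E.symm d) := by
    intro k
    induction k with
    | zero => intro d; rfl
    | succ k ih =>
      intro d
      rw [pow_succ', Equiv.Perm.mul_apply, ← ih d]
      have := hL (E.symm ((R.face ^ k) d))
      simpa [F] using this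
  have hinv' : ∀ d d' : G.Dart, R.face.SameCycle d d' → L (E.symm d) = L (E.symm d') := by
    intro d d' h
    obtain ⟨k, hk⟩ := h
    rcases Int.eq_nat_or_neg k with ⟨m, hm | hm⟩
    · subst hm
      rw [← hk, zpow_natCast, hinv]
    · subst hm
      rw [zpow_neg, zpow_natCast, Equiv.Perm.inv_eq_iff_eq] at hk
      rw [hk, hinv]
  let g : Quotient (Equiv.Perm.SameCycle.setoid R.face) → Fin n :=
    Quotient.lift (fun d => L (E.symm d)) hinv'
  have hg : Function.Surjective g := by
    intro i
    obtain ⟨x, hx⟩ := hs i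
    refine ⟨Quotient.mk _ (E x), ?_⟩
    show L (E.symm (E x)) = i
    simpa using hx
  have : Finite (Quotient (Equiv.Perm.SameCycle.setoid R.face)) := inferInstance
  have := Nat.card_le_card_of_surjective g hg
  unfold Rotation.faces
  simpa using this

theorem label_same (R : Rotation G) (n : ℕ) (L : Fin 30 → Fin n)
    (hL : ∀ x, L (F R x) = L x) (d d' : G.Dart) (h : R.face.SameCycle d d') :
    L (E.symm d) = L (E.symm d') := by
  have hinv : ∀ (k : ℕ) (d : G.Dart), L (E.symm ((R.face ^ k) d)) = L (E.symm d) := by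
    intro k
    induction k with
    | zero => intro d; rfl
    | succ k ih =>
      intro d
      rw [pow_succ', Equiv.Perm.mul_apply, ← ih d]
      have := hL (E.symm ((R.face ^ k) d))
      simpa [F] using this
  obtain ⟨k, hk⟩ := h
  rcases Int.eq_nat_or_neg k with ⟨m, hm | hm⟩
  · subst hm
    rw [← hk, zpow_natCast, hinv]
  · subst hm
    rw [zpow_neg, zpow_natCast, Equiv.Perm.inv_eq_iff_eq] at hk
    rw [hk, hinv]

/-- face labels of the torus embedding -/
def lab1 : Fin 30 → Fin 5 :=
  ![0,1,2,3,2,0,1,0,3,2,3,1,0,2,2,1,3,4,3,2,1,2,4,2,4,3,2,1,2,4]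

/-- face labels of the embedding of genus two -/
def lab2 : Fin 30 → Fin 3 :=
  ![0,1,2,1,2,0,1,2,0,2,0,1,0,1,2,2,1,0,0,2,1,1,0,2,2,0,1,1,2,0]

theorem rf3 : ∀ x, rf 293 (rf 293 (rf 293 x)) = x := by decide +kernel
theorem rfc : ∀ x y : Fin 30, (x : ℕ) / 3 = (y : ℕ) / 3 →
    y = x ∨ y = rf 293 x ∨ y = rf 293 (rf 293 x) := by decide +kernel
theorem rf3' : ∀ x, rf 3 (rf 3 (rf 3 x)) = x := by decide +kernel
theorem rfc' : ∀ x y : Fin 30, (x : ℕ) / 3 = (y : ℕ) / 3 →
    y = x ∨ y = rf 3 x ∨ y = rf 3 (rf 3 x) := by decide +kernel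

/-- the torus embedding -/
noncomputable def R1 : Rotation G := ofMask 293 rf3 rfc

/-- the embedding of genus two with circuit faces -/
noncomputable def R2 : Rotation G := ofMask 3 rf3' rfc'

theorem F_R1 (x : Fin 30) : F R1 x = rf 293 ⟨al x, al_lt x⟩ := by
  unfold F R1
  rw [ofMask_face]
  simp

theorem F_R2 (x : Fin 30) : F R2 x = rf 3 ⟨al x, al_lt x⟩ := by
  unfold F R2
  rw [ofMask_face]
  simp

theorem lab1_inv : ∀ x : Fin 30, lab1 (rf 293 ⟨al x, al_lt x⟩) = lab1 x := by decide +kernel
theorem lab2_inv : ∀ x : Fin 30, lab2 (rf 3 ⟨al x, al_lt x⟩) = lab2 x := by decide +kernel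
theorem lab1_surj : Function.Surjective lab1 := by
  unfold Function.Surjective
  decide +kernel
theorem lab2_surj : Function.Surjective lab2 := by
  unfold Function.Surjective
  decide +kernel
theorem lab2_vertex : ∀ x y : Fin 30, (x : ℕ) / 3 = (y : ℕ) / 3 → lab2 x = lab2 y → x = y := by
  decide +kernel
theorem lab2_edge : ∀ x : Fin 30, lab2 x ≠ lab2 ⟨al x, al_lt x⟩ := by decide +kernel

theorem check (R : Rotation G) : R.faces ≤ 3 ∨ (R.faces ≤ 5 ∧ ∃ d : G.Dart,
    R.face.SameCycle d d.symm) := by
  have h := okMask_all ⟨mask R, mask_lt R⟩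
  have h' : okMask (mask R) = true := h
  unfold okMask at h'
  rw [Bool.or_eq_true, Bool.and_eq_true, decide_eq_true_eq, decide_eq_true_eq] at h'
  have hle := faces_le R
  rcases h' with h1 | ⟨h1, h2⟩
  · left
    omega
  · right
    exact ⟨by omega, bad_spec R h2⟩

theorem faces_R1 : R1.faces = 5 := by
  have h1 := faces_ge R1 5 lab1 (fun x => by rw [F_R1, lab1_inv]) lab1_surj
  rcases check R1 with h | ⟨h, _⟩ <;> omega

theorem R2_vertex (d d' : G.Dart) (h : R2.face.SameCycle d d') (hf : d.fst = d'.fst) :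
    d = d' := by
  have h1 := label_same R2 3 lab2 (fun x => by rw [F_R2, lab2_inv]) d d' h
  obtain ⟨x, rfl⟩ := E.surjective d
  obtain ⟨y, rfl⟩ := E.surjective d'
  rw [Equiv.symm_apply_apply, Equiv.symm_apply_apply] at h1
  have h' := congrArg Fin.val hf
  rw [E_fst, E_fst] at h'
  rw [lab2_vertex x y h' h1]

theorem R2_edge (d : G.Dart) : ¬ R2.face.SameCycle d d.symm := by
  intro h
  have h1 := label_same R2 3 lab2 (fun x => by rw [F_R2, lab2_inv]) _ _ h
  obtain ⟨x, rfl⟩ := E.surjective d
  rw [E_symm, Equiv.symm_apply_apply, Equiv.symm_apply_apply] at h1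
  exact lab2_edge x h1

theorem faces_R2 : R2.faces = 3 := by
  have h1 := faces_ge R2 3 lab2 (fun x => by rw [F_R2, lab2_inv]) lab2_surj
  rcases check R2 with h | ⟨_, d, hd⟩
  · omega
  · exact absurd hd (R2_edge d)

theorem genus_G : genus G = 1 := by
  unfold genus
  apply le_antisymm
  · apply Nat.sInf_le
    refine ⟨R1, ?_⟩
    rw [euler_eq, faces_R1]
    norm_num
  · apply le_csInf
    · refine ⟨1, R1, ?_⟩
      rw [euler_eq, faces_R1]
      norm_num
    · rintro g ⟨R, hR⟩
      rw [euler_eq] at hR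
      by_contra hg
      have hg0 : g = 0 := by omega
      subst hg0
      have hf : (R.faces : ℤ) = 7 := by
        push_cast at hR
        linarith
      have hf' : R.faces = 7 := by exact_mod_cast hf
      rcases check R with h | ⟨h, _⟩ <;> omega

/-- There is a 3-edge-connected cubic simple graph `G` with ten vertices, of genus `1`, such that
in every embedding of `G` in the torus (rotation system of Euler characteristic `2 - 2 * genus G`)
some face traverses an edge twice; moreover every rotation system of `G` in which no face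
traverses an edge twice has Euler characteristic at most `-2`, and one with Euler characteristic
`-2` has all facial walks vertex-simple. -/
theorem result : ∃ G : SimpleGraph (Fin 10),
    (∀ v, (G.neighborSet v).ncard = 3) ∧
    (∀ e f : Sym2 (Fin 10), (G.deleteEdges {e, f}).Connected) ∧
    genus G = 1 ∧
    (∀ R : Rotation G, R.eulerChar = 2 - 2 * (genus G : ℤ) →
      ∃ d : G.Dart, R.face.SameCycle d d.symm) ∧
    (∀ R : Rotation G, (∀ d : G.Dart, ¬ R.face.SameCycle d d.symm) → R.eulerChar ≤ 2 - 2 * 2) ∧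
    (∃ R : Rotation G, R.eulerChar = 2 - 2 * 2 ∧
      (∀ d : G.Dart, ¬ R.face.SameCycle d d.symm) ∧
      ∀ d d' : G.Dart, R.face.SameCycle d d' → d.fst = d'.fst → d = d') := by
  refine ⟨G, deg_three, conn, genus_G, ?_, ?_, ?_⟩
  · intro R hR
    rw [genus_G, euler_eq] at hR
    rcases check R with h | ⟨_, h⟩
    · exfalso
      have : (R.faces : ℤ) ≤ 3 := by exact_mod_cast h
      push_cast at hR
      linarith
    · exact h
  · intro R hR
    rw [euler_eq]
    rcases check R with h | ⟨_, d, hd⟩
    · have : (R.faces : ℤ) ≤ 3 := by exact_mod_cast h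
      linarith
    · exact absurd hd (hR d)
  · refine ⟨R2, ?_, R2_edge, R2_vertex⟩
    rw [euler_eq, faces_R2]
    norm_num

end Pool.Agent.Results.MP_f8ee93_co.ThreeEdgeConnected
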